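import Pool.Agent.N298.SQ.Typ

/-!
# The squeezing function at weakly pseudoconvex points: sequences with limit one

For every `n ≥ 2` the egg `D = {|z_1|² + … + |z_{n-1}|² + |z_n|⁴ < 1}` and its weakly pseudoconvex
boundary point `p = (1, 0, …, 0)` form an admissible pair (of classes (B) and (C), and of class (A)
for `n = 2`), and there is a sequence in `D` converging to `p` along which the squeezing function
tends to `1`.
-/

set_option autoImplicit false

namespace Pool.Agent.Results.MP_63facb_an.EggDomain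

open Filter Topology N298.SQ

theorem result (n : ℕ) (hn : 2 ≤ n) :
    ∃ (D : Set (EuclideanSpace ℂ (Fin n))) (p : EuclideanSpace ℂ (Fin n)),
      AdmB D p ∧ AdmC D p ∧ (n = 2 → AdmA D p) ∧
      (∃ z : ℕ → EuclideanSpace ℂ (Fin n), (∀ k, z k ∈ D) ∧ Tendsto z atTop (𝓝 p) ∧
        Tendsto (fun k => squeeze D (z k)) atTop (𝓝 1)) ∧
      ¬ StronglyPsc D p := by
  obtain ⟨m, rfl⟩ : ∃ m, n = m + 2 := ⟨n - 2, by omega⟩
  set i0 : Fin (m + 2) := 0 with h0
  set i1 : Fin (m + 2) := Fin.last (m + 1) with h1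
  have h01 : i0 ≠ i1 := by
    rw [h0, h1]
    intro h
    have := congrArg Fin.val h
    simp at this
  have hfin : FiniteTypeNear (egg i0 i1) (pp i0 i1) :=
    ⟨Set.univ, isOpen_univ, Set.mem_univ _, fun q hq => egg_fin h01 (frontier_rho hq.2)⟩
  have hsm : SmoothNear (egg i0 i1) (pp i0 i1) :=
    ⟨Set.univ, rho i0 i1, egg_locDef, Set.mem_univ _, rho_pp h01⟩
  refine ⟨egg i0 i1, pp i0 i1, ?_, ?_, ?_, exists_seq h01, not_strong h01⟩
  · exact ⟨egg_dom h01, pp_frontier h01, hn, egg_psc h01, hfin, egg_rank h01⟩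
  · exact ⟨egg_dom h01, pp_frontier h01, hn, egg_convex, hsm, hfin⟩
  · intro h2
    exact ⟨egg_dom h01, pp_frontier h01, h2, egg_psc h01, egg_fin h01 (rho_pp h01)⟩

end Pool.Agent.Results.MP_63facb_an.EggDomain
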